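import Mathlib

/-!
The least `m ≥ 1` such that every subgroup of `S_n` that is Galois closed over a `k`-element set
is `m`-closed in the sense of Wielandt is `n - ⌈n / k⌉`.
-/

namespace Pool.Agent.Results.MP_4c291d_al.Exact

/-- `G ≤ S_n` is Galois closed over a `k`-element set: it is the invariance group of some set `F`
of functions `k^n → k`, where `f` is invariant under `σ` if `f (a_{1σ}, …, a_{nσ}) = f a`
for all `a`. -/
def GaloisClosed {n : ℕ} (k : ℕ) (G : Subgroup (Equiv.Perm (Fin n))) : Prop :=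
  ∃ F : Set ((Fin n → Fin k) → Fin k), ∀ σ : Equiv.Perm (Fin n),
    σ ∈ G ↔ ∀ f ∈ F, ∀ a : Fin n → Fin k, f (fun i => a (σ i)) = f a

/-- `G ≤ S_n` is `m`-closed: it is the set of permutations preserving every member of some set `R`
of `m`-ary relations on `{1, …, n}`. -/
def MClosed {n : ℕ} (m : ℕ) (G : Subgroup (Equiv.Perm (Fin n))) : Prop :=
  ∃ R : Set (Set (Fin m → Fin n)), ∀ σ : Equiv.Perm (Fin n),
    σ ∈ G ↔ ∀ ρ ∈ R, ∀ r ∈ ρ, (fun j => σ (r j)) ∈ ρ

theorem ceil_facts (n k : ℕ) (hn : 2 ≤ n) (hk : 2 ≤ k) :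
    ⌈(n : ℚ) / k⌉₊ = (n - 1) / k + 1 := by
  have hk0 : (0 : ℚ) < k := by exact_mod_cast (by omega : 0 < k)
  rw [Nat.ceil_eq_iff (Nat.succ_ne_zero _)]
  have h1 : (n - 1) / k * k ≤ n - 1 := Nat.div_mul_le_self _ _
  have h2 : n - 1 < ((n - 1) / k + 1) * k := by
    have := Nat.lt_div_mul_add (a := n - 1) (b := k) (by omega)
    nlinarith
  constructor
  · rw [lt_div_iff₀ hk0]
    have : ((n - 1) / k + 1 - 1) * k < n := by
      simp only [Nat.add_sub_cancel]; omega
    exact_mod_cast this
  · rw [div_le_iff₀ hk0]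
    have : n ≤ ((n - 1) / k + 1) * k := by omega
    exact_mod_cast this

theorem upper (n k : ℕ) (hn : 2 ≤ n) (_hk : 2 ≤ k) (G : Subgroup (Equiv.Perm (Fin n)))
    (hG : GaloisClosed k G) : MClosed (n - ((n - 1) / k + 1)) G := by
  classical
  obtain ⟨F, hF⟩ := hG
  set m := n - ((n - 1) / k + 1) with hm
  refine ⟨{ρ | ∀ g ∈ G, ∀ r ∈ ρ, (fun j => g (r j)) ∈ ρ}, fun π => ⟨?_, ?_⟩⟩
  · intro hπ ρ hρ r hr
    exact hρ π hπ r hr
  · intro hπ
    have horb : ∀ r : Fin m → Fin n, ∃ g ∈ G, ∀ j, g (r j) = π (r j) := by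
      intro r
      have := hπ {s | ∃ g ∈ G, s = fun j => g (r j)} (by
        rintro g hg s ⟨h, hh, rfl⟩
        exact ⟨g * h, G.mul_mem hg hh, by ext j; simp⟩) r ⟨1, G.one_mem, by ext j; simp⟩
      obtain ⟨g, hg, h⟩ := this
      exact ⟨g, hg, fun j => (congrFun h j).symm⟩
    rw [hF]
    intro f hf a
    have hlt : Fintype.card (Fin k) * ((n - 1) / k) < Fintype.card (Fin n) := by
      simp only [Fintype.card_fin]
      have h1 : k * ((n - 1) / k) ≤ n - 1 := Nat.mul_div_le _ _
      omega
    obtain ⟨c, hc⟩ := Fintype.exists_lt_card_fiber_of_mul_lt_card (fun i => a (π i)) hlt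
    set D : Finset (Fin n) := Finset.univ.filter (fun i => ¬ a (π i) = c) with hD
    have hcard : D.card ≤ m := by
      have := Finset.card_filter_add_card_filter_not (s := (Finset.univ : Finset (Fin n)))
        (fun i => a (π i) = c)
      simp only [Finset.card_univ, Fintype.card_fin] at this
      rw [← hD] at this
      omega
    have hex : ∃ r : Fin m → Fin n, ∀ i ∈ D, ∃ j, r j = i := by
      have hc' : Fintype.card D ≤ Fintype.card (Fin m) := by simpa using hcard
      obtain ⟨e⟩ := Function.Embedding.nonempty_of_card_le hc'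
      refine ⟨Function.extend e (fun x => (x : Fin n)) (fun _ => ⟨0, by omega⟩), ?_⟩
      intro i hi
      exact ⟨e ⟨i, hi⟩, e.injective.extend_apply _ _ _⟩
    obtain ⟨r, hr⟩ := hex
    obtain ⟨g, hg, hgr⟩ := horb r
    have hgD : ∀ i ∈ D, g i = π i := by
      intro i hi
      obtain ⟨j, rfl⟩ := hr i hi
      exact hgr j
    have heq : (fun i => a (π i)) = fun i => a (g i) := by
      ext1 i
      by_cases hi : i ∈ D
      · rw [hgD i hi]
      · have h1 : a (π i) = c := by simpa [hD] using hi
        by_contra hne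
        have h2 : π.symm (g i) ∈ D := by
          simp only [hD, Finset.mem_filter, Finset.mem_univ, true_and, Equiv.apply_symm_apply]
          intro h
          exact hne (h1.trans h.symm)
        have h3 := hgD _ h2
        rw [Equiv.apply_symm_apply] at h3
        have h4 : π.symm (g i) = i := g.injective h3
        rw [h4] at h2
        exact hi h2
    rw [heq]
    exact (hF g).1 hg f hf a

/-- The even permutations preserving each block `{i : i / k = b}`. -/
def blockGroup (n k : ℕ) : Subgroup (Equiv.Perm (Fin n)) where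
  carrier := {σ | (∀ i, (σ i : ℕ) / k = (i : ℕ) / k) ∧ Equiv.Perm.sign σ = 1}
  mul_mem' := by
    rintro a b ⟨ha, ha'⟩ ⟨hb, hb'⟩
    refine ⟨fun i => ?_, by simp [ha', hb']⟩
    rw [Equiv.Perm.mul_apply, ha, hb]
  one_mem' := ⟨fun i => rfl, by simp⟩
  inv_mem' := by
    rintro a ⟨ha, ha'⟩
    refine ⟨fun i => ?_, by simp [ha']⟩
    have := ha (a⁻¹ i)
    simp only [Equiv.Perm.coe_inv, Equiv.apply_symm_apply] at this
    exact this.symm

theorem mem_blockGroup {n k : ℕ} {σ : Equiv.Perm (Fin n)} :
    σ ∈ blockGroup n k ↔ (∀ i, (σ i : ℕ) / k = (i : ℕ) / k) ∧ Equiv.Perm.sign σ = 1 := Iff.rfl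

theorem blockGroup_closed (n k : ℕ) (hk : 2 ≤ k) : GaloisClosed k (blockGroup n k) := by
  classical
  refine ⟨{f | ∀ g ∈ blockGroup n k, ∀ a, f (fun i => a (g i)) = f a}, fun π => ⟨?_, ?_⟩⟩
  · intro hπ f hf a
    exact hf π hπ a
  · intro hπ
    let z : Fin k := ⟨0, by omega⟩
    let o : Fin k := ⟨1, by omega⟩
    have hzo : z ≠ o := by simp [z, o]
    have horb : ∀ a : Fin n → Fin k, ∃ g ∈ blockGroup n k, ∀ i, a (π i) = a (g i) := by
      intro a
      have h := hπ (fun x => if ∃ g ∈ blockGroup n k, ∀ i, x i = a (g i) then o else z) (by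
        intro g hg x
        have : (∃ h ∈ blockGroup n k, ∀ i, x (g i) = a (h i)) ↔
            ∃ h ∈ blockGroup n k, ∀ i, x i = a (h i) := by
          constructor
          · rintro ⟨h, hh, hx⟩
            refine ⟨h * g⁻¹, (blockGroup n k).mul_mem hh ((blockGroup n k).inv_mem hg), ?_⟩
            intro i
            have := hx (g⁻¹ i)
            simpa using this
          · rintro ⟨h, hh, hx⟩
            exact ⟨h * g, (blockGroup n k).mul_mem hh hg, fun i => hx (g i)⟩
        simp only [this]) a
      have h1 : ∃ g ∈ blockGroup n k, ∀ i, a i = a (g i) :=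
        ⟨1, (blockGroup n k).one_mem, fun i => rfl⟩
      simp only [h1, if_true] at h
      by_contra hne
      rw [if_neg hne] at h
      exact hzo h
    have hblock : ∀ i, (π i : ℕ) / k = (i : ℕ) / k := by
      intro i
      obtain ⟨g, hg, h⟩ := horb (fun x => if (x : ℕ) / k = (i : ℕ) / k then o else z)
      have h1 := h i
      simp only [(mem_blockGroup.1 hg).1 i, if_true] at h1
      by_contra hne
      rw [if_neg hne] at h1
      exact hzo h1
    obtain ⟨g, hg, h⟩ := horb (fun x => ⟨(x : ℕ) % k, Nat.mod_lt _ (by omega)⟩)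
    have : π = g := by
      ext i
      have h1 : (π i : ℕ) % k = (g i : ℕ) % k := by simpa using h i
      have h2 : (π i : ℕ) / k = (g i : ℕ) / k := by rw [hblock, (mem_blockGroup.1 hg).1]
      rw [← Nat.div_add_mod (π i) k, ← Nat.div_add_mod (g i) k, h1, h2]
    rw [this]
    exact hg

theorem swap_block {n k : ℕ} (u v : Fin n) (h : (u : ℕ) / k = (v : ℕ) / k) (i : Fin n) :
    (Equiv.swap u v i : ℕ) / k = (i : ℕ) / k := by
  rw [Equiv.swap_apply_def]
  split_ifs with h1 h2
  · rw [h1, h]
  · rw [h2, h]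
  · rfl

theorem blockGroup_not_closed (n k m : ℕ) (hn : 2 ≤ n) (hk : 2 ≤ k)
    (hm : m < n - ((n - 1) / k + 1)) : ¬ MClosed m (blockGroup n k) := by
  classical
  rintro ⟨R, hR⟩
  let z : Fin n := ⟨0, by omega⟩
  let o : Fin n := ⟨1, by omega⟩
  have hzo : z ≠ o := by simp [z, o]
  have hb : (z : ℕ) / k = (o : ℕ) / k := by
    simp only [z, o]
    rw [Nat.div_eq_of_lt (by omega), Nat.div_eq_of_lt (by omega)]
  have hmem : Equiv.swap z o ∈ blockGroup n k := by
    rw [hR]
    intro ρ hρ r hr
    set C : Finset (Fin n) := (Finset.univ.image r)ᶜ with hC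
    have hcard : (Finset.range ((n - 1) / k + 1)).card < C.card := by
      have h1 : (Finset.univ.image r).card ≤ m := by
        simpa using Finset.card_image_le (s := (Finset.univ : Finset (Fin m))) (f := r)
      rw [hC, Finset.card_compl, Finset.card_range, Fintype.card_fin]
      omega
    obtain ⟨u, hu, v, hv, huv, hbuv⟩ := Finset.exists_ne_map_eq_of_card_lt_of_maps_to hcard
      (f := fun i : Fin n => (i : ℕ) / k) (by
        intro i _
        simp only [Finset.coe_range, Set.mem_Iio]
        have : (i : ℕ) / k ≤ (n - 1) / k := Nat.div_le_div_right (by have := i.2; omega)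
        omega)
    have hg : Equiv.swap z o * Equiv.swap u v ∈ blockGroup n k := by
      refine mem_blockGroup.2 ⟨fun i => ?_, ?_⟩
      · rw [Equiv.Perm.mul_apply, swap_block z o hb, swap_block u v hbuv]
      · rw [Equiv.Perm.sign_mul, Equiv.Perm.sign_swap hzo, Equiv.Perm.sign_swap huv]
        simp
    have := (hR _).1 hg ρ hρ r hr
    have heq : (fun j => (Equiv.swap z o * Equiv.swap u v) (r j)) =
        fun j => Equiv.swap z o (r j) := by
      ext1 j
      have hu' : r j ≠ u := by
        intro h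
        simp only [hC, Finset.mem_compl, Finset.mem_image, Finset.mem_univ, true_and,
          not_exists] at hu
        exact hu j h
      have hv' : r j ≠ v := by
        intro h
        simp only [hC, Finset.mem_compl, Finset.mem_image, Finset.mem_univ, true_and,
          not_exists] at hv
        exact hv j h
      rw [Equiv.Perm.mul_apply, Equiv.swap_apply_of_ne_of_ne hu' hv']
    rw [heq] at this
    exact this
  have := (mem_blockGroup.1 hmem).2
  rw [Equiv.Perm.sign_swap hzo] at this
  exact absurd this (by decide)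

end Pool.Agent.Results.MP_4c291d_al.Exact

open Pool.Agent.Results.MP_4c291d_al.Exact in
/-- For `n, k ≥ 2`, the least `m ≥ 1` such that every subgroup of `S_n` that is Galois closed over
a `k`-element set is `m`-closed equals `n - ⌈n / k⌉`. -/
theorem Pool.Agent.Results.MP_4c291d_al.Exact.result (n k : ℕ) (hn : 2 ≤ n) (hk : 2 ≤ k) :
    IsLeast {m : ℕ | 1 ≤ m ∧
      ∀ G : Subgroup (Equiv.Perm (Fin n)), GaloisClosed k G → MClosed m G}
      (n - ⌈(n : ℚ) / (k : ℚ)⌉₊) := by
  rw [ceil_facts n k hn hk]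
  refine ⟨⟨?_, upper n k hn hk⟩, ?_⟩
  · have : (n - 1) / k < n - 1 := Nat.div_lt_self (by omega) (by omega)
    omega
  · rintro m ⟨_, hm⟩
    by_contra hlt
    exact blockGroup_not_closed n k m hn hk (by omega) (hm _ (blockGroup_closed n k hk))
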