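import Pool.Agent.Lib.MP_4c291d_al.D

/-!
The groups that attain `w(n, k) = n - ⌈n / k⌉`. For `k ≥ 3`, `q = ⌈n / k⌉` and `2q + 3 ≤ n`, a group
`G ≤ S_n` that is Galois closed over a `k`-element set has Wielandt closure number `n - q` exactly
when it preserves a partition into `q` blocks of size at most `k` and the permutations that fix
every block and lie in `G` are the even ones.
-/

open Pool.Agent.Results.MP_4c291d_al.Exact

theorem Pool.Agent.Results.MP_4c291d_al.ExtremalGroups.result (n k q : ℕ) (hk : 3 ≤ k)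
    (hq : q = ⌈(n : ℚ) / (k : ℚ)⌉₊) (hn : 2 * q + 3 ≤ n)
    (G : Subgroup (Equiv.Perm (Fin n))) (hG : GaloisClosed k G) :
    IsLeast {m : ℕ | 1 ≤ m ∧ MClosed m G} (n - q) ↔
      ∃ β : Fin n → Fin q, (∀ i, {x | β x = i}.ncard ≤ k) ∧
        (∀ g ∈ G, ∀ x y, β x = β y → β (g x) = β (g y)) ∧
        ∀ σ : Equiv.Perm (Fin n), (∀ x, β (σ x) = β x) → (σ ∈ G ↔ Equiv.Perm.sign σ = 1) := by
  rw [ceil_facts n k (by omega) (by omega)] at hq
  subst hq
  rw [Pool.Agent.Lib.MP_4c291d_al.extremal n k hk hn G hG]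
  refine exists_congr fun β => and_congr_left fun _ => forall_congr' fun i => ?_
  rw [← Set.ncard_coe_finset]
  simp
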